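import Pool.Agent.H75.CO.Core
import Pool.Agent.H92.LG.CoreS

/-!
# [H9 XB Bal] bridge from `H75/CO/Core` to `H92/LG/CoreS`: the balls of a norm
-/

set_option autoImplicit false

namespace Pool.Agent.H9.XB

open Pool.Agent.H54.TT Pool.Agent.H98.RH Pool.Agent.H92.LG Pool.Agent.H75.CO Pool.Agent.H9.XM Matrix
open scoped NNReal

section

variable {F : Type} [Field F] {v : F → ℤ} {hv : IsDV v} {n : ℕ}

theorem mem_mv {g : GL (Fin n) F} {M : Pool.Agent.H75.CO.Lt hv n} {y : Fin n → F} :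
    y ∈ mv g M ↔ (g⁻¹ : GL (Fin n) F).val *ᵥ y ∈ M := by
  constructor
  · rintro ⟨x, hx, rfl⟩
    show (g⁻¹ : GL (Fin n) F).val *ᵥ (g.val *ᵥ x) ∈ M
    rw [Matrix.mulVec_mulVec, ← Units.val_mul, inv_mul_cancel, Units.val_one, Matrix.one_mulVec]
    exact hx
  · intro h
    refine ⟨_, h, ?_⟩
    show g.val *ᵥ ((g⁻¹ : GL (Fin n) F).val *ᵥ y) = y
    rw [Matrix.mulVec_mulVec, ← Units.val_mul, mul_inv_cancel, Units.val_one, Matrix.one_mulVec]

theorem mem_LM {g : GL (Fin n) F} {y : Fin n → F} :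
    y ∈ LM hv g ↔ (g⁻¹ : GL (Fin n) F).val *ᵥ y ∈ L0 hv n := mem_mv

end

variable {E : Type} [Field E] {n : ℕ}

theorem ger_iff (r : ℝ) (x : LL E) : GeR (od E) r x ↔ (‖x‖₊ : ℝ) ≤ (2 : ℝ) ^ (-r) := by
  unfold GeR
  rw [coe_nnnorm]
  by_cases hx : x = 0
  · rw [hx, norm_zero]
    exact ⟨fun _ => (Real.rpow_pos_of_pos two_pos _).le, fun _ h => absurd rfl h⟩
  · rw [norm_ne hx, ← Real.rpow_intCast, Real.rpow_le_rpow_left_iff one_lt_two]
    push_cast
    constructor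
    · intro h
      have := h hx
      linarith
    · intro h _
      linarith

theorem ge_iff_nn (m : ℤ) (x : LL E) : Ge (od E) m x ↔ (‖x‖₊ : ℝ) ≤ (2 : ℝ) ^ (-m) := by
  rw [coe_nnnorm]
  exact (norm_le m x).symm

theorem ov_norm (c : Ov (isDV_od E)) : ‖(c : LL E)‖₊ ≤ 1 := by
  have h := (ge_iff_nn 0 (c : LL E)).1 c.2
  rw [neg_zero, zpow_zero] at h
  exact_mod_cast h

theorem nrm_zero {b : (Fin n → LL E) → ℝ≥0} (hb : IsNrm b) : b 0 = 0 := by
  have h := hb.smul 0 0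
  rw [zero_smul, nnnorm_zero, zero_mul] at h
  exact h

/-- the balls of a norm -/
noncomputable def bal {b : (Fin n → LL E) → ℝ≥0} (hb : IsNrm b) (t : ℝ) : Pool.Agent.H75.CO.Lt (isDV_od E) n where
  carrier := {y | (b y : ℝ) ≤ (2 : ℝ) ^ t}
  add_mem' := by
    intro x y hx hy
    have h : (b (x + y) : ℝ) ≤ max (b x : ℝ) (b y : ℝ) := by exact_mod_cast hb.add x y
    exact h.trans (max_le hx hy)
  zero_mem' := by
    show (b 0 : ℝ) ≤ 2 ^ t
    rw [nrm_zero hb, NNReal.coe_zero]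
    exact (Real.rpow_pos_of_pos two_pos _).le
  smul_mem' := by
    intro c x hx
    show (b ((c : LL E) • x) : ℝ) ≤ 2 ^ t
    have h : b ((c : LL E) • x) ≤ b x := by
      rw [hb.smul]
      exact mul_le_of_le_one_left zero_le (ov_norm c)
    have h2 : (b ((c : LL E) • x) : ℝ) ≤ b x := by exact_mod_cast h
    exact h2.trans hx

theorem mem_bal {b : (Fin n → LL E) → ℝ≥0} (hb : IsNrm b) {t : ℝ} {y : Fin n → LL E} :
    y ∈ bal hb t ↔ (b y : ℝ) ≤ (2 : ℝ) ^ t := Iff.rfl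

/-- adapted bases -/
theorem ad_of {b : (Fin n → LL E) → ℝ≥0} (hb : IsNrm b) (h : GL (Fin n) (LL E)) {B : Matrix (Fin n) (Fin n) (LL E)}
    (hB : GO B) {α : Fin n → ℝ≥0} (h0 : ∀ i, 0 < α i) (h1 : ∀ i j, i ≤ j → α j ≤ α i)
    (h2 : ∀ x : Fin n → LL E, b (h.val *ᵥ (Matrix.vecMul x B)) = Finset.univ.sup fun i => ‖x i‖₊ * α i) :
    ∃ e : GL (Fin n) (LL E), e.val = h.val * Bᵀ ∧ Ad (bal hb) (LM (isDV_od E) h) e (fun i => -Real.logb 2 (α i)) := by
  have hBu : IsUnit Bᵀ.det := by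
    rw [Matrix.det_transpose]
    exact hB.isUnit
  let t : GL (Fin n) (LL E) := Matrix.nonsingInvUnit Bᵀ hBu
  have ht : t.val = Bᵀ := rfl
  have hti : (t⁻¹ : GL (Fin n) (LL E)).val = (Bᵀ)⁻¹ := by
    rw [← ht]
    exact (Matrix.coe_units_inv t)
  have hsup : ∀ {f : Fin n → ℝ≥0} {c : ℝ≥0}, Finset.univ.sup f ≤ c ↔ ∀ i, f i ≤ c := by
    intro f c
    rw [Finset.sup_le_iff]
    exact ⟨fun h i => h i (Finset.mem_univ i), fun h i _ => h i⟩
  have hint : ∀ (C : Matrix (Fin n) (Fin n) (LL E)), (∀ i j, ‖C i j‖₊ ≤ 1) → ∀ y ∈ L0 (isDV_od E) n,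
      C *ᵥ y ∈ L0 (isDV_od E) n := by
    intro C hC y hy i
    rw [ge_iff_nn, neg_zero, zpow_zero]
    have h3 : ‖(C *ᵥ y) i‖₊ ≤ 1 := by
      show ‖∑ j, C i j * y j‖₊ ≤ 1
      refine IsUltrametricDist.nnnorm_sum_le_of_forall_le fun j _ => ?_
      rw [nnnorm_mul]
      have h4 := (ge_iff_nn 0 (y j)).1 (hy j)
      rw [neg_zero, zpow_zero] at h4
      exact mul_le_one' (hC i j) (by exact_mod_cast h4)
    exact_mod_cast h3
  refine ⟨h * t, by rw [Units.val_mul, ht], ?_, ?_, ?_⟩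
  · ext y
    rw [mem_LM, mem_LM, _root_.mul_inv_rev, Units.val_mul, ← Matrix.mulVec_mulVec]
    constructor
    · intro h3
      have h4 := hint Bᵀ (fun i j => hB.int j i) _ h3
      rw [Matrix.mulVec_mulVec, ← ht, ← Units.val_mul, mul_inv_cancel, Units.val_one, Matrix.one_mulVec] at h4
      exact h4
    · intro h3
      refine hint _ (fun i j => ?_) _ h3
      rw [hti, ← Matrix.transpose_nonsing_inv, Matrix.transpose_apply]
      exact hB.inv.int j i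
  · intro i j hij
    have h3 : (α j : ℝ) ≤ α i := by exact_mod_cast h1 i j hij
    exact neg_le_neg (Real.logb_le_logb_of_le one_lt_two (by exact_mod_cast h0 j) h3)
  · intro s y
    have hy : y = h.val *ᵥ (Matrix.vecMul (((h * t)⁻¹ : GL (Fin n) (LL E)).val *ᵥ y) B) := by
      rw [← Matrix.mulVec_transpose, ← ht, Matrix.mulVec_mulVec, Matrix.mulVec_mulVec, ← Units.val_mul, ← Units.val_mul]
      rw [mul_inv_cancel, Units.val_one, Matrix.one_mulVec]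
    have hby : b y = Finset.univ.sup fun i => ‖(((h * t)⁻¹ : GL (Fin n) (LL E)).val *ᵥ y) i‖₊ * α i := by
      conv_lhs => rw [hy]
      exact h2 _
    have h3 : (b y : ℝ) ≤ 2 ^ s ↔ ∀ i, ((‖(((h * t)⁻¹ : GL (Fin n) (LL E)).val *ᵥ y) i‖₊ * α i : ℝ≥0) : ℝ) ≤ 2 ^ s := by
      have h5 : ((((2 : ℝ≥0) ^ s : ℝ≥0)) : ℝ) = (2 : ℝ) ^ s := by
        rw [NNReal.coe_rpow]
        rfl
      rw [← h5, NNReal.coe_le_coe, hby, hsup]
      exact forall_congr' fun i => by rw [NNReal.coe_le_coe]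
    rw [mem_bal, h3]
    refine forall_congr' fun i => ?_
    have hα : (0 : ℝ) < α i := by exact_mod_cast h0 i
    rw [ger_iff, NNReal.coe_mul, show -(-s - -Real.logb 2 (α i : ℝ)) = s - Real.logb 2 (α i : ℝ) by ring,
      Real.rpow_sub two_pos, Real.rpow_logb two_pos (by norm_num) hα, le_div_iff₀ hα]

theorem hn_bal [Finite E] {b : (Fin n → LL E) → ℝ≥0} (hb : IsNrm b) : Hn (bal hb) := by
  intro h
  have hη : IsNrm (fun y : Fin n → LL E => b (h.val *ᵥ y)) := by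
    refine ⟨fun x y => ?_, fun c x => ?_, fun x hx => ?_⟩
    · rw [Matrix.mulVec_add]
      exact hb.add _ _
    · rw [Matrix.mulVec_smul]
      exact hb.smul _ _
    · refine hb.pos _ fun h0 => hx ?_
      have h1 : (h⁻¹ : GL (Fin n) (LL E)).val *ᵥ (h.val *ᵥ x) = 0 := by rw [h0, Matrix.mulVec_zero]
      rw [Matrix.mulVec_mulVec, ← Units.val_mul, inv_mul_cancel, Units.val_one, Matrix.one_mulVec] at h1
      exact h1
  obtain ⟨B, hB, h1, h2⟩ := exists_sorted hη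
  have h0 : ∀ i, 0 < b (h.val *ᵥ B i) := by
    intro i
    refine hη.pos _ fun h3 => ?_
    have h4 : B.det = 0 := Matrix.det_eq_zero_of_row_eq_zero i fun j => congrFun h3 j
    exact hB.isUnit.ne_zero h4
  obtain ⟨e, -, he⟩ := ad_of hb h hB h0 h1 h2
  exact ⟨e, _, he⟩

/-- scaling of a norm is a shift of the balls -/
theorem bal_scale {b b' : (Fin n → LL E) → ℝ≥0} (hb : IsNrm b) (hb' : IsNrm b') (g : GL (Fin n) (LL E)) {a : ℝ≥0}
    (ha : 0 < a) (h : ∀ y, b' y = a * b (g.val *ᵥ y)) (t : ℝ) :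
    bal hb' t = mv g⁻¹ (bal hb (t - Real.logb 2 a)) := by
  have ha' : (0 : ℝ) < a := by exact_mod_cast ha
  ext y
  rw [mem_mv, inv_inv, mem_bal, mem_bal, h y, NNReal.coe_mul, Real.rpow_sub two_pos, Real.rpow_logb two_pos (by norm_num) ha',
    le_div_iff₀ ha', mul_comm]

theorem nrm_scale {b b' : (Fin n → LL E) → ℝ≥0} (hb : IsNrm b) (g : GL (Fin n) (LL E)) {a : ℝ≥0}
    (ha : 0 < a) (h : ∀ y, b' y = a * b (g.val *ᵥ y)) : IsNrm b' := by
  refine ⟨fun x y => ?_, fun c x => ?_, fun x hx => ?_⟩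
  · rw [h, h, h, Matrix.mulVec_add, ← mul_max_of_nonneg _ _ zero_le]
    exact mul_le_mul' le_rfl (hb.add _ _)
  · rw [h, h, Matrix.mulVec_smul, hb.smul]
    ring
  · rw [h]
    refine mul_pos ha (hb.pos _ fun h0 => hx ?_)
    have h1 : (g⁻¹ : GL (Fin n) (LL E)).val *ᵥ (g.val *ᵥ x) = 0 := by rw [h0, Matrix.mulVec_zero]
    rw [Matrix.mulVec_mulVec, ← Units.val_mul, inv_mul_cancel, Units.val_one, Matrix.one_mulVec] at h1
    exact h1

end Pool.Agent.H9.XB
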