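import Pool.Agent.H75.CO.Adp
import Pool.Agent.H9.XB.Bal

/-!
# [H9 XB Clz] bridge from `H75/CO/Core` to `H92/LG/CoreS`: closeness
-/

set_option autoImplicit false

namespace Pool.Agent.H9.XB

open Pool.Agent.H54.TT Pool.Agent.H98.RH Pool.Agent.H92.LG Pool.Agent.H75.CO Pool.Agent.H9.XM Matrix
open scoped NNReal

variable {E : Type} [Field E] {n : ℕ}

private theorem sup_le_rpow {f : Fin n → ℝ≥0} {t : ℝ} :
    ((Finset.univ.sup f : ℝ≥0) : ℝ) ≤ (2 : ℝ) ^ t ↔ ∀ i, (f i : ℝ) ≤ 2 ^ t := by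
  have h5 : ((((2 : ℝ≥0) ^ t : ℝ≥0)) : ℝ) = (2 : ℝ) ^ t := by
    rw [NNReal.coe_rpow]
    rfl
  rw [← h5, NNReal.coe_le_coe, Finset.sup_le_iff]
  exact ⟨fun h i => NNReal.coe_le_coe.2 (h i (Finset.mem_univ i)), fun h i _ => NNReal.coe_le_coe.1 (h i)⟩

/-- the balls of `σ_k(b)` -/
theorem mem_sg_iff {π : (LL E)ˣ} (hπ : od E π = 1) {b : (Fin n → LL E) → ℝ≥0} (hb : IsNrm b) {k : Fin n}
    {s : (Fin n → LL E) → ℝ≥0} (hs : IsSig k b s) (t : ℝ) (y : Fin n → LL E) :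
    y ∈ sg π (LM (isDV_od E) 1) (bal hb) k t ↔ (s y : ℝ) ≤ (2 : ℝ) ^ t := by
  obtain ⟨B, α, hA, hs⟩ := hs
  obtain ⟨e, he, hAd⟩ := ad_of hb 1 hA.go hA.pos hA.anti (fun x => by
    rw [Units.val_one, Matrix.one_mulVec]
    exact hA.eq x)
  rw [mem_sg hπ hAd k t y]
  have hy : y = Matrix.vecMul ((e⁻¹ : GL (Fin n) (LL E)).val *ᵥ y) B := by
    have h1 : e.val = Bᵀ := by rw [he, Units.val_one, Matrix.one_mul]
    rw [← Matrix.mulVec_transpose, ← h1, Matrix.mulVec_mulVec, ← Units.val_mul, mul_inv_cancel, Units.val_one,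
      Matrix.one_mulVec]
  have hsy : s y = Finset.univ.sup fun i => ‖((e⁻¹ : GL (Fin n) (LL E)).val *ᵥ y) i‖₊ * min (α i / α k) 1 := by
    conv_lhs => rw [hy]
    exact hs _
  rw [hsy, sup_le_rpow]
  refine forall_congr' fun i => ?_
  have h0 : ∀ j, (0 : ℝ) < α j := fun j => by exact_mod_cast hA.pos j
  have h1 : ((min (α i / α k) 1 : ℝ≥0) : ℝ) = (2 : ℝ) ^ (-max (-Real.logb 2 (α i) - -Real.logb 2 (α k)) 0) := by
    have h2 : ((α i / α k : ℝ≥0) : ℝ) = (2 : ℝ) ^ (Real.logb 2 (α i) - Real.logb 2 (α k)) := by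
      rw [NNReal.coe_div, Real.rpow_sub two_pos, Real.rpow_logb two_pos (by norm_num) (h0 i),
        Real.rpow_logb two_pos (by norm_num) (h0 k)]
    rw [NNReal.coe_min, NNReal.coe_one, h2]
    rcases le_total (Real.logb 2 (α i)) (Real.logb 2 (α k)) with h | h
    · rw [max_eq_left (by linarith), min_eq_left]
      · exact congrArg _ (by ring)
      · exact Real.rpow_le_one_of_one_le_of_nonpos one_le_two (by linarith)
    · rw [max_eq_right (by linarith), min_eq_right, neg_zero, Real.rpow_zero]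
      exact Real.one_le_rpow one_le_two (by linarith)
  rw [ger_iff, NNReal.coe_mul, h1]
  have h3 : (0 : ℝ) < 2 ^ (-max (-Real.logb 2 (α i) - -Real.logb 2 (α k)) 0) := Real.rpow_pos_of_pos two_pos _
  rw [← le_div_iff₀ h3, ← Real.rpow_sub two_pos]
  have h4 : -(-t - max (-Real.logb 2 (α i : ℝ) - -Real.logb 2 (α k)) 0) =
      t - -max (-Real.logb 2 (α i : ℝ) - -Real.logb 2 (α k)) 0 := by ring
  rw [h4]

theorem exists_sig [Finite E] {b : (Fin n → LL E) → ℝ≥0} (hb : IsNrm b) (k : Fin n) : ∃ s, IsSig k b s := by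
  obtain ⟨B, hB, h1, h2⟩ := exists_sorted hb
  refine ⟨fun y => Finset.univ.sup fun i => ‖Matrix.vecMul y B⁻¹ i‖₊ * min (b (B i) / b (B k)) 1, B, fun i => b (B i),
    ⟨hB, fun i => hb.pos _ fun h3 => ?_, h1, h2⟩, fun x => ?_⟩
  · have h4 : B.det = 0 := Matrix.det_eq_zero_of_row_eq_zero i fun j => congrFun h3 j
    exact hB.isUnit.ne_zero h4
  · show (Finset.univ.sup fun i => ‖Matrix.vecMul (Matrix.vecMul x B) B⁻¹ i‖₊ * min (b (B i) / b (B k)) 1) = _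
    rw [Matrix.vecMul_vecMul, Matrix.mul_nonsing_inv B hB.isUnit, Matrix.vecMul_one]

theorem mem_LM_one {y : Fin n → LL E} (hy : y ∈ LM (isDV_od E) (1 : GL (Fin n) (LL E))) (i : Fin n) : ‖y i‖₊ ≤ 1 := by
  rw [mem_LM, inv_one, Units.val_one, Matrix.one_mulVec] at hy
  have h := (ge_iff_nn 0 (y i)).1 (hy i)
  rw [neg_zero, zpow_zero] at h
  exact_mod_cast h

/-- close norms have close balls -/
theorem cl_of_Close [Finite E] {π : (LL E)ˣ} (hπ : od E π = 1) {b0 b : (Fin n → LL E) → ℝ≥0} (hb0 : IsNrm b0)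
    (hb : IsNrm b) {δ : ℝ≥0} {e D : ℝ} (hδ : (δ : ℝ) ≤ 2 ^ (-D) * (2 ^ e - 1)) (he : 0 ≤ e) (h : Close δ b0 b) :
    Cl π (LM (isDV_od E) 1) (bal hb) (bal hb0) e D := by
  intro k t ht
  obtain ⟨s, hs⟩ := exists_sig hb k
  obtain ⟨s0, hs0⟩ := exists_sig hb0 k
  have key : ∀ {x y : ℝ≥0}, (x : ℝ) ≤ 2 ^ t → y ≤ x + δ → (y : ℝ) ≤ 2 ^ (t + e) := by
    intro x y hx hy
    have h1 : (y : ℝ) ≤ x + δ := by exact_mod_cast hy
    have h2 : (1 : ℝ) ≤ 2 ^ e := Real.one_le_rpow one_le_two he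
    have h3 : (2 : ℝ) ^ (-D) ≤ 2 ^ t := Real.rpow_le_rpow_of_exponent_le one_le_two ht
    have h4 : (2 : ℝ) ^ (-D) * (2 ^ e - 1) ≤ 2 ^ t * (2 ^ e - 1) := mul_le_mul_of_nonneg_right h3 (by linarith)
    rw [Real.rpow_add two_pos]
    nlinarith
  constructor
  · rintro y ⟨hy1, hy2⟩
    rw [mem_sg_iff hπ hb0 hs0]
    exact key ((mem_sg_iff hπ hb hs t y).1 hy2) (h k s0 s hs0 hs y fun i => mem_LM_one hy1 i).1
  · rintro y ⟨hy1, hy2⟩
    rw [mem_sg_iff hπ hb hs]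
    exact key ((mem_sg_iff hπ hb0 hs0 t y).1 hy2) (h k s0 s hs0 hs y fun i => mem_LM_one hy1 i).2

end Pool.Agent.H9.XB
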