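import Pool.Agent.H9.XB.Main

/-!
# [H9 XB CoreP] the theorem `core` of `H92/LG/CoreS` from `H75/CO/Core`: the end
-/

set_option autoImplicit false

namespace Pool.Agent.H9.XB

open Pool.Agent.H54.TT Pool.Agent.H98.RH Pool.Agent.H92.LG Pool.Agent.H75.CO Pool.Agent.H9.XM Pool.Agent.H65.NT Matrix
open scoped NNReal Pointwise

private theorem ep_pos (n : ℕ) : 0 < ep n := by
  unfold ep
  positivity

private theorem exists_delta (n : ℕ) (D : ℝ) : ∃ δ : ℝ≥0, 0 < δ ∧ (δ : ℝ) ≤ 2 ^ (-D) * (2 ^ ep n - 1) := by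
  have h1 : (1 : ℝ) < 2 ^ ep n := Real.one_lt_rpow one_lt_two (ep_pos n)
  have h2 : (0 : ℝ) < 2 ^ (-D) * (2 ^ ep n - 1) := mul_pos (Real.rpow_pos_of_pos two_pos _) (by linarith)
  exact ⟨⟨_, h2.le⟩, h2, le_rfl⟩

private theorem near_zero {m : ℕ} {a : ℕ} {p : Fin m → ℤ} (h : Near a p 0) (l : Fin m) : |p l| ≤ a := by
  have h1 := h l
  rw [Pi.zero_apply, sub_zero] at h1
  exact h1

private theorem cc_eq (n R c : ℕ) : CC n R c = 10 * (R + 1) * (AA n R) ^ (NN n) * c := by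
  unfold CC Ln
  ring

private theorem ncard_le {E : Type} [Field E] {n : ℕ} (π : (LL E)ˣ) {J : Type} [Finite J] {R c c2 : ℕ}
    {σ : J → GL (Fin n) (LL E)} (hc2 : ∀ c s : ℕ, c2 ≤ c → s ≤ Nat.card J →
      (10 * (10 * (R + 1) * (AA n R) ^ (NN n) * c + 1) * (s + 1) ^ ((AA n R) ^ (NN n) * c)) ^ 3 ^ (JJ n) ≤ 2 ^ (c ^ 2))
    (hc : c2 ≤ c) {X : Set (Pool.Agent.H75.CO.Lt (isDV_od E) n)}
    (hX : X ⊆ (fun t => ev (isDV_od E) π (fun g : GL (Fin n) (LL E) => g) t) ''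
      TL (Set.range σ) (Ln (AA n R) c (NN n)) (CC n R c) (JJ n)) : X.Finite ∧ X.ncard ≤ 2 ^ (c ^ 2) := by
  obtain ⟨h1, h2⟩ := TL_card (Set.finite_range σ) (Ln (AA n R) c (NN n)) (CC n R c) (JJ n)
  refine ⟨(h1.image _).subset hX, ?_⟩
  have h3 : (Set.range σ).ncard ≤ Nat.card J := by
    rw [← Set.image_univ, ← Set.ncard_univ]
    exact Set.ncard_image_le Set.finite_univ
  have h4 := hc2 c _ hc h3
  calc X.ncard ≤ _ := Set.ncard_le_ncard hX (h1.image _)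
    _ ≤ _ := Set.ncard_image_le h1
    _ ≤ _ := h2
    _ ≤ 2 ^ (c ^ 2) := by
      rw [cc_eq]
      exact h4

/-- CORE, in the form of `H92/LG/CoreS` -/
theorem core {n : ℕ} (hn : 0 < n) : ∃ (Reg : Type) (_ : Fintype Reg) (r : Reg → ℕ), ∀ (J : Type) [Finite J] (R : ℕ),
    ∃ R' κ c1 : ℕ, ∀ c, c1 ≤ c → ∃ (M : ℕ) (T : Set (Pool.Agent.H98.RH.LT (Fin M → J))), T.Finite ∧
      ∀ (E : Type) [Field E] [Finite E] (σ : J → GL (Fin n) (LL E)), (∃ j, σ j = 1) → (∀ j, ∃ j', σ j' = (σ j)⁻¹) →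
        (∀ j, Bdm R (od E) (σ j)) → ∃ (St Wk : Reg → ((Fin n → LL E) → ℝ≥0) → Prop)
          (f : ∀ t : Reg, ((Fin n → LL E) → ℝ≥0) → (Fin (r t + 1) → ℤ) → Submodule (Ov (isDV_od E)) (Fin n → LL E))
          (δ : ℝ≥0), 0 < δ ∧ CoreOut σ r R' κ c T St Wk f δ := by
  classical
  refine ⟨Rgm hn, Fintype.ofFinite _, fun t => (t.1.1 : ℕ), fun J _ R => ?_⟩
  obtain ⟨c2, hc2⟩ := exists_bound (10 * (R + 1) * (AA n R) ^ (NN n)) ((AA n R) ^ (NN n)) (Nat.card J) (3 ^ JJ n)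
  refine ⟨3 * RR n R, 2, max c2 (3 * RR n R + 1), fun c hc => ⟨Ln (AA n R) c (NN n),
    TW J (Ln (AA n R) c (NN n)) (CC n R c) (JJ n), TW_finite _ _ _ _, ?_⟩⟩
  intro E _ _ σ h1 hinv hbd
  have hc1 : c2 ≤ c := (le_max_left _ _).trans hc
  have hc3 : 3 * RR n R + 1 ≤ c := (le_max_right _ _).trans hc
  have hc4 : 1 ≤ c := by omega
  obtain ⟨p, hp, hp1⟩ := (isDV_od E).unif
  let π : (LL E)ˣ := Units.mk0 p hp
  have hπ : od E π = 1 := hp1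
  have hs := stp hπ h1 hinv hbd
  obtain ⟨δ, hδ0, hδ⟩ := exists_delta n (Ln (AA n R) c (NN n) : ℝ)
  let W : ∀ t : Rgm hn, ((Fin n → LL E) → ℝ≥0) → ((Fin ((t.1.1 : ℕ) + 1) → ℤ) →
      Pool.Agent.H75.CO.Lt (isDV_od E) n) → Prop :=
    fun t b f => WkN π (Set.range σ) (AA n R) c (ex hn t.1.2) b f
  let f : ∀ t : Rgm hn, ((Fin n → LL E) → ℝ≥0) → (Fin ((t.1.1 : ℕ) + 1) → ℤ) → Pool.Agent.H75.CO.Lt (isDV_od E) n :=
    fun t b => if h : ∃ g, W t b g then h.choose else fun _ => ⊥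
  have hf : ∀ t b, (∃ g, W t b g) → W t b (f t b) := by
    intro t b h
    have e : f t b = h.choose := dif_pos h
    rw [e]
    exact h.choose_spec
  have hst : ∀ t b g, StN (r := (t.1.1 : ℕ)) π (Set.range σ) (AA n R) c (ex hn t.1.2) b g → W t b g := by
    rintro t b g ⟨hb, hg⟩
    exact ⟨hb, Pool.Agent.H75.CO.St.wk hn hs hc4 t.2 (hn_bal hb) hg⟩
  have hev : ∀ t b, (∃ g, W t b g) → ∀ p, Near c p 0 → ∃ tm ∈ TL (Set.range σ) (Ln (AA n R) c (NN n)) (CC n R c) (JJ n),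
      f t b p = ev (isDV_od E) π (fun g : GL (Fin n) (LL E) => g) tm := by
    intro t b hb p hp
    obtain ⟨hN, hw⟩ := hf t b hb
    exact weak_term hn hs hc4 t.2 (hn_bal hN) hw (fun l => near_zero hp l)
  have hcard := ncard_le (E := E) (σ := σ) π (c2 := c2) (R := R) (c := c) hc2 hc1
    (X := {Λ | ∃ t b p, IsNrm b ∧ (∃ g, W t b g) ∧ Near c p 0 ∧ Λ = f t b p}) (by
      rintro _ ⟨t, b, p, -, hb, hp, rfl⟩
      obtain ⟨tm, h3, h4⟩ := hev t b hb p hp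
      exact ⟨tm, h3, h4.symm⟩)
  refine ⟨fun t b => ∃ g, StN (r := (t.1.1 : ℕ)) π (Set.range σ) (AA n R) c (ex hn t.1.2) b g,
    fun t b => ∃ g, W t b g, f, δ, hδ0, ?_, ?_, ?_, ?_, hcard.1, hcard.2⟩
  · intro b hb
    obtain ⟨r, d, g, hd, hg⟩ := exists_strong hn hs hc4 1 (hn_bal hb)
    have hl : ∀ l, l ≤ r → d l = ex hn (fun i : Fin n => d i) l := fun l hl => (ex_eq hn d hd.lt hl).symm
    exact ⟨⟨(⟨r, hd.lt⟩, fun i => d i), Rg.congr' hl hd⟩, g, hb, st_congr hl hg⟩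
  · rintro t b0 b b' j a hb0 hb ⟨g, hg⟩ hcl ha hb'
    have hf0 := hf t b0 ⟨g, hst t b0 g hg⟩
    obtain ⟨h3, h4⟩ := stabN hn hπ hs hc4 t.2 hδ (ep_pos n).le hb0 hb hg hf0 hcl ⟨j, rfl⟩ ha hb'
    refine ⟨h3, ?_⟩
    obtain ⟨dl, h5, h6⟩ := h4 _ (hf t b' h3)
    refine ⟨dl, fun l => ?_, fun p hp => h6 p fun l => ?_⟩
    · rw [Pi.zero_apply, sub_zero]
      have h7 := h5 l
      push_cast
      have h9 : (0 : ℤ) ≤ RR n R := Int.natCast_nonneg _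
      linarith
    · have h7 := near_zero hp l
      have h8 : ((c - 3 * RR n R : ℕ) : ℤ) = c - 3 * RR n R := by
        have : 3 * RR n R ≤ c := by omega
        push_cast [Nat.cast_sub this]
        ring
      rw [h8] at h7
      linarith
  · rintro t b - hb p q hp hq hpq
    obtain ⟨hN, hw⟩ := hf t b hb
    exact weak_inj hn hs hc4 t.2 (hn_bal hN) hw (fun l => near_zero hp l) (fun l => near_zero hq l) hpq
  · rintro t b - hb p hp π' hπ'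
    obtain ⟨tm, h3, h4⟩ := hev t b hb p hp
    obtain ⟨t', h5, h6⟩ := exists_word (isDV_od E) π σ (JJ n) tm h3
    refine ⟨t', h5, ?_⟩
    rw [h4, h6]
    exact ev_unif (isDV_od E) (by rw [hπ, hπ']) _ _

end Pool.Agent.H9.XB
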