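import Pool.Agent.H75.CO.Core

/-!
# [H9 XB Reg] bridge from `H75/CO/Core` to `H92/LG/CoreS`: the finite type of the regimes
-/

set_option autoImplicit false

namespace Pool.Agent.H9.XB

open Pool.Agent.H54.TT Pool.Agent.H98.RH Pool.Agent.H75.CO

instance finite_Dat (n N : ℕ) : Finite (Dat n N) :=
  Finite.of_injective (fun d : Dat n N => (d.al, d.be, d.a, d.b, d.j, d.k)) (by
    rintro ⟨a1, a2, a3, a4, a5, a6⟩ ⟨b1, b2, b3, b4, b5, b6⟩ h
    simp only [Prod.mk.injEq] at h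
    obtain ⟨h1, h2, h3, h4, h5, h6⟩ := h
    rw [h1, h2, h3, h4, h5, h6])

/-- extension of a finite sequence of data -/
def ex {n N : ℕ} (hn : 0 < n) (d : Fin n → Dat n N) (l : ℕ) : Dat n N := if h : l < n then d ⟨l, h⟩ else d ⟨0, hn⟩

theorem ex_eq {n N : ℕ} (hn : 0 < n) (d : ℕ → Dat n N) {r l : ℕ} (hr : r < n) (hl : l ≤ r) :
    ex hn (fun i : Fin n => d i) l = d l := by
  unfold ex
  rw [dif_pos (lt_of_le_of_lt hl hr)]

/-- the type of the regimes -/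
def Rgm {n : ℕ} (hn : 0 < n) : Type := {p : Fin n × (Fin n → Dat n (NN n)) // Rg (p.1 : ℕ) (ex hn p.2)}

instance finite_Rgm {n : ℕ} (hn : 0 < n) : Finite (Rgm hn) :=
  inferInstanceAs (Finite {p : Fin n × (Fin n → Dat n (NN n)) // Rg (p.1 : ℕ) (ex hn p.2)})

theorem Rg.congr' {n N r : ℕ} {d d' : ℕ → Dat n N} (h : ∀ l, l ≤ r → d l = d' l) (hd : Rg r d) : Rg r d' where
  lt := hd.lt
  c1 := by
    intro l hl
    rw [← h l hl]
    exact hd.c1 l hl
  c2 := by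
    intro l hl
    rw [← h l hl.le, ← h (l + 1) hl]
    exact hd.c2 l hl

section

variable {K : Type} [Field K] {v : K → ℤ} {hv : IsDV v} {π : Kˣ} {n : ℕ} {G : Type} [Group G]
  {ρ : G →* GL (Fin n) K} {S : Set G} {A L1 N r : ℕ} {d d' : ℕ → Dat n N} {g : G} {B : ℝ → Pool.Agent.H75.CO.Lt hv n}
  {f : (Fin (r + 1) → ℤ) → Pool.Agent.H75.CO.Lt hv n}

private theorem tw_congr (h : ∀ l, l ≤ r → d l = d' l) {θ : ℝ} {W : ℕ → Pool.Agent.H75.CO.Lt hv n}
    (hT : Tw π ρ S A L1 θ r d g B W) : Tw π ρ S A L1 θ r d' g B W where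
  top := hT.top
  bot := hT.bot
  ne := hT.ne
  sub := hT.sub
  lv := by
    intro l hl
    rw [← h l hl]
    exact hT.lv l hl

private theorem wd_congr (h : ∀ l, l ≤ r → d l = d' l) {W : ℕ → Pool.Agent.H75.CO.Lt hv n} {p : ℕ → ℤ → ℝ}
    (hT : Wd π ρ S A L1 r d g B W p f) : Wd π ρ S A L1 r d' g B W p f := by
  have hG : Gm A L1 r d' = Gm A L1 r d := by
    unfold Gm
    rw [h r le_rfl]
  refine ⟨fun l hl => ?_, fun i => ?_⟩
  · rw [← h l hl, hG]
    exact hT.en l hl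
  · rw [hT.eq i, hG]
    exact iSup_congr fun l => by rw [h l (Nat.lt_succ_iff.1 l.2)]

theorem wk_congr (h : ∀ l, l ≤ r → d l = d' l) (hf : Wk π ρ S A L1 r d g B f) : Wk π ρ S A L1 r d' g B f := by
  obtain ⟨W, p, h1, h2⟩ := hf
  exact ⟨W, p, tw_congr h h1, wd_congr h h2⟩

theorem st_congr (h : ∀ l, l ≤ r → d l = d' l) (hf : St π ρ S A L1 r d g B f) : St π ρ S A L1 r d' g B f := by
  obtain ⟨W, p, h1, h2, h3⟩ := hf
  refine ⟨W, p, tw_congr h h1, fun l hl => ?_, wd_congr h h3⟩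
  rw [← h l hl]
  exact h2 l hl

end

end Pool.Agent.H9.XB
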