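import Pool.Agent.H75.CO.Adp
import Pool.Agent.H75.CO.Core

/-!
# [H9 XB Shf] bridge from `H75/CO/Core` to `H92/LG/CoreS`: scaling of the norm
-/

set_option autoImplicit false

namespace Pool.Agent.H9.XB

open Pool.Agent.H54.TT Pool.Agent.H98.RH Pool.Agent.H75.CO Matrix

section

variable {K : Type} [Field K] {v : K → ℤ} {hv : IsDV v} {π : Kˣ} {n : ℕ}

theorem ad_shift {B : ℝ → Pool.Agent.H75.CO.Lt hv n} {M : Pool.Agent.H75.CO.Lt hv n} {e : GL (Fin n) K} {β : Fin n → ℝ}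
    (h : Ad B M e β) (s : ℝ) : Ad (fun t => B (t + s)) M e (fun i => β i + s) where
  lat := h.lat
  mono := fun i j hij => by
    have := h.mono hij
    show β i + s ≤ β j + s
    linarith
  mem := by
    intro t x
    rw [h.mem (t + s) x]
    refine forall_congr' fun i => ?_
    rw [show -(t + s) - β i = -t - (β i + s) by ring]

theorem hn_shift {B : ℝ → Pool.Agent.H75.CO.Lt hv n} (hB : Hn B) (s : ℝ) : Hn (fun t => B (t + s)) := by
  intro h
  obtain ⟨e, β, he⟩ := hB h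
  exact ⟨e, _, ad_shift he s⟩

theorem sg_shift (hπ : v π = 1) {B : ℝ → Pool.Agent.H75.CO.Lt hv n} (hB : Hn B) (s : ℝ) (h : GL (Fin n) K) :
    sg π (LM hv h) (fun t => B (t + s)) = sg π (LM hv h) B := by
  obtain ⟨e, β, he⟩ := hB h
  funext k t
  unfold sg
  rw [bt_eq hπ (ad_shift he s) k, bt_eq hπ he k]
  show B (t - (β k + s) + s) ⊔ bl π (LM hv h) t = B (t - β k) ⊔ bl π (LM hv h) t
  rw [show t - (β k + s) + s = t - β k by ring]

end

section

variable {K : Type} [Field K] {v : K → ℤ} {hv : IsDV v} {π : Kˣ} {n : ℕ} {G : Type} [Group G]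
  {ρ : G →* GL (Fin n) K} {S : Set G} {A L1 N r : ℕ} {d : ℕ → Dat n N} {g : G} {B B' : ℝ → Pool.Agent.H75.CO.Lt hv n}
  {f : (Fin (r + 1) → ℤ) → Pool.Agent.H75.CO.Lt hv n}

private theorem kap_congr (h : sg π (La hv ρ g) B' = sg π (La hv ρ g) B) (W : Pool.Agent.H75.CO.Lt hv n) (k : Fin n) :
    kap π ρ B' W k g = kap π ρ B W k g := by
  funext x
  unfold kap
  rw [h]

private theorem lv_congr (h : sg π (La hv ρ g) B' = sg π (La hv ρ g) B) {θ : ℝ} {d : Dat n N}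
    {W W1 : Pool.Agent.H75.CO.Lt hv n} (hL : Lv π ρ S A L1 θ d g B W W1) : Lv π ρ S A L1 θ d g B' W W1 where
  le := hL.le
  y1 := by
    rw [kap_congr h]
    exact hL.y1
  y2 := by
    rw [h]
    exact hL.y2
  t1 := by
    rw [kap_congr h]
    exact hL.t1
  t2 := by
    rw [kap_congr h]
    exact hL.t2

private theorem sp_congr (h : sg π (La hv ρ g) B' = sg π (La hv ρ g) B) (d : Dat n N) (W W1 : Pool.Agent.H75.CO.Lt hv n) :
    Sp π ρ S A L1 d g B' W W1 = Sp π ρ S A L1 d g B W W1 := by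
  unfold Sp
  rw [kap_congr h]

private theorem tw_congr (h : sg π (La hv ρ g) B' = sg π (La hv ρ g) B) {θ : ℝ} {W : ℕ → Pool.Agent.H75.CO.Lt hv n}
    (hT : Tw π ρ S A L1 θ r d g B W) : Tw π ρ S A L1 θ r d g B' W where
  top := hT.top
  bot := hT.bot
  ne := hT.ne
  sub := hT.sub
  lv := fun l hl => lv_congr h (hT.lv l hl)

private theorem wd_congr (h : sg π (La hv ρ g) B' = sg π (La hv ρ g) B) {W : ℕ → Pool.Agent.H75.CO.Lt hv n} {p : ℕ → ℤ → ℝ}
    (hT : Wd π ρ S A L1 r d g B W p f) : Wd π ρ S A L1 r d g B' W p f := by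
  refine ⟨fun l hl => ?_, fun i => ?_⟩
  · rw [sp_congr h]
    exact hT.en l hl
  · rw [hT.eq i]
    exact iSup_congr fun l => by rw [sp_congr h]

/-- windows depend only on the norms `sg` -/
theorem wk_sg (h : sg π (La hv ρ g) B' = sg π (La hv ρ g) B) (hf : Wk π ρ S A L1 r d g B f) :
    Wk π ρ S A L1 r d g B' f := by
  obtain ⟨W, p, h1, h2⟩ := hf
  exact ⟨W, p, tw_congr h h1, wd_congr h h2⟩

theorem wk_shift (hπ : v π = 1) (hB : Hn B) (s : ℝ) (hf : Wk π ρ S A L1 r d g B f) :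
    Wk π ρ S A L1 r d g (fun t => B (t + s)) f :=
  wk_sg (sg_shift hπ hB s (ρ g)) hf

theorem wk_unshift (hπ : v π = 1) (hB : Hn B) (s : ℝ) (hf : Wk π ρ S A L1 r d g (fun t => B (t + s)) f) :
    Wk π ρ S A L1 r d g B f :=
  wk_sg (sg_shift hπ hB s (ρ g)).symm hf

end

end Pool.Agent.H9.XB
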