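import Pool.Agent.H9.XB.Wrd
import Pool.Agent.H9.XB.Reg
import Pool.Agent.H9.XB.Clz
import Pool.Agent.H9.XB.Shf
import Pool.Agent.H92.LG.DicA

/-!
# [H9 XB Main] the theorem `core` of `H92/LG/CoreS` from `H75/CO/Core`
-/

set_option autoImplicit false

namespace Pool.Agent.H9.XB

open Pool.Agent.H54.TT Pool.Agent.H98.RH Pool.Agent.H92.LG Pool.Agent.H75.CO Pool.Agent.H9.XM Pool.Agent.H65.NT Matrix
open scoped NNReal Pointwise

section

variable {E : Type} [Field E] {n : ℕ}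

theorem norm_pow {π : (LL E)ˣ} (hπ : od E π = 1) (k : ℤ) : ‖((π ^ k : (LL E)ˣ) : LL E)‖ = (2 : ℝ) ^ (-k) := by
  rw [Units.val_zpow_eq_zpow_val, norm_zpow, norm_ne π.ne_zero, hπ, ← _root_.zpow_mul, neg_one_mul]

theorem mem_sh_L0 {π : (LL E)ˣ} (hπ : od E π = 1) (k : ℤ) (y : Fin n → LL E) :
    y ∈ sh π k (L0 (isDV_od E) n) ↔ ∀ i, ‖y i‖ ≤ (2 : ℝ) ^ (-k) := by
  have h2 : (0 : ℝ) < 2 ^ (-k) := zpow_pos two_pos _
  constructor
  · rintro ⟨x, hx, rfl⟩ i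
    have h1 := (ge_iff_nn 0 (x i)).1 (hx i)
    rw [neg_zero, zpow_zero, coe_nnnorm] at h1
    show ‖((π ^ k : (LL E)ˣ) : LL E) * x i‖ ≤ _
    rw [norm_mul, norm_pow hπ]
    exact mul_le_of_le_one_right h2.le h1
  · intro h
    refine ⟨((π ^ (-k) : (LL E)ˣ) : LL E) • y, fun i => ?_, ?_⟩
    · rw [ge_iff_nn, neg_zero, zpow_zero, coe_nnnorm]
      show ‖((π ^ (-k) : (LL E)ˣ) : LL E) * y i‖ ≤ 1
      rw [norm_mul, norm_pow hπ]
      calc (2 : ℝ) ^ (-(-k)) * ‖y i‖ ≤ 2 ^ (-(-k)) * 2 ^ (-k) :=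
            mul_le_mul_of_nonneg_left (h i) (zpow_pos two_pos _).le
        _ = 1 := by rw [← zpow_add₀ two_ne_zero, neg_add_cancel, zpow_zero]
    · show ((π ^ k : (LL E)ˣ) : LL E) • (((π ^ (-k) : (LL E)ˣ) : LL E) • y) = y
      rw [smul_smul, ← Units.val_mul, ← _root_.zpow_add, add_neg_cancel, zpow_zero, Units.val_one, one_smul]

/-- the setup -/
theorem stp {π : (LL E)ˣ} (hπ : od E π = 1) {J : Type} [Finite J] {R : ℕ} {σ : J → GL (Fin n) (LL E)}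
    (h1 : ∃ j, σ j = 1) (hinv : ∀ j, ∃ j', σ j' = (σ j)⁻¹) (hb : ∀ j, Bdm R (od E) (σ j)) :
    Stp (isDV_od E) π (MonoidHom.id (GL (Fin n) (LL E))) (Set.range σ) R where
  unif := hπ
  fin := Set.finite_range σ
  one := h1
  inv := by
    rintro _ ⟨j, rfl⟩
    exact hinv j
  low := by
    rintro _ ⟨j, rfl⟩ y hy
    rw [mem_sh_L0 hπ] at hy
    show y ∈ LM (isDV_od E) (σ j)
    rw [mem_LM]
    intro i
    rw [ge_iff_nn, neg_zero, zpow_zero, coe_nnnorm]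
    show ‖∑ k, ((σ j)⁻¹ : GL (Fin n) (LL E)).val i k * y k‖ ≤ 1
    refine IsUltrametricDist.norm_sum_le_of_forall_le_of_nonneg zero_le_one fun k _ => ?_
    have h3 := (ge_iff_nn _ _).1 (hb j i k).2
    rw [coe_nnnorm, neg_neg] at h3
    rw [norm_mul]
    calc _ ≤ (2 : ℝ) ^ (R : ℤ) * 2 ^ (-(R : ℤ)) :=
          mul_le_mul h3 (hy k) (norm_nonneg _) (zpow_pos two_pos _).le
      _ = 1 := by rw [← zpow_add₀ two_ne_zero, add_neg_cancel, zpow_zero]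
  up := by
    rintro _ ⟨j, rfl⟩ y hy
    rw [mem_sh_L0 hπ]
    obtain ⟨x, hx, rfl⟩ := hy
    intro i
    show ‖∑ k, (σ j).val i k * x k‖ ≤ _
    refine IsUltrametricDist.norm_sum_le_of_forall_le_of_nonneg (zpow_pos two_pos _).le fun k _ => ?_
    have h3 := (ge_iff_nn _ _).1 (hb j i k).1
    have h4 := (ge_iff_nn 0 (x k)).1 (hx k)
    rw [coe_nnnorm] at h3
    rw [neg_zero, zpow_zero, coe_nnnorm] at h4
    rw [norm_mul]
    calc _ ≤ (2 : ℝ) ^ (-(-(R : ℤ))) * 1 := mul_le_mul h3 h4 (norm_nonneg _) (zpow_pos two_pos _).le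
      _ = _ := mul_one _

end

section

variable {E : Type} [Field E] {n : ℕ}

/-- weak windows of a norm -/
def WkN (π : (LL E)ˣ) (S : Set (GL (Fin n) (LL E))) (A c : ℕ) {N r : ℕ} (d : ℕ → Dat n N)
    (b : (Fin n → LL E) → ℝ≥0) (f : (Fin (r + 1) → ℤ) → Pool.Agent.H75.CO.Lt (isDV_od E) n) : Prop :=
  ∃ hb : IsNrm b, Wk π (MonoidHom.id _) S A c r d 1 (bal hb) f

/-- strong windows of a norm -/
def StN (π : (LL E)ˣ) (S : Set (GL (Fin n) (LL E))) (A c : ℕ) {N r : ℕ} (d : ℕ → Dat n N)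
    (b : (Fin n → LL E) → ℝ≥0) (f : (Fin (r + 1) → ℤ) → Pool.Agent.H75.CO.Lt (isDV_od E) n) : Prop :=
  ∃ hb : IsNrm b, St π (MonoidHom.id _) S A c r d 1 (bal hb) f

theorem cl_refl [Finite E] {π : (LL E)ˣ} (hπ : od E π = 1) {b : (Fin n → LL E) → ℝ≥0} (hb : IsNrm b) {e : ℝ} (D : ℝ)
    (he : 0 ≤ e) : Cl π (LM (isDV_od E) 1) (bal hb) (bal hb) e D := by
  intro k t _
  obtain ⟨s, hs⟩ := exists_sig hb k
  have key : LM (isDV_od E) 1 ⊓ sg π (LM (isDV_od E) 1) (bal hb) k t ≤ sg π (LM (isDV_od E) 1) (bal hb) k (t + e) := by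
    rintro y ⟨-, hy⟩
    rw [mem_sg_iff hπ hb hs]
    exact ((mem_sg_iff hπ hb hs t y).1 hy).trans (Real.rpow_le_rpow_of_exponent_le one_le_two (by linarith))
  exact ⟨key, key⟩

/-- stability in the form of `CoreOut` -/
theorem stabN [Finite E] (hn : 0 < n) {π : (LL E)ˣ} (hπ : od E π = 1) {S : Set (GL (Fin n) (LL E))} {R : ℕ}
    (hs : Stp (isDV_od E) π (MonoidHom.id (GL (Fin n) (LL E))) S R) {c : ℕ} (hc : 1 ≤ c) {r : ℕ} {d : ℕ → Dat n (NN n)}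
    (hd : Rg r d) {δ : ℝ≥0} (hδ : (δ : ℝ) ≤ 2 ^ (-(Ln (AA n R) c (NN n) : ℝ)) * (2 ^ ep n - 1)) (hep : 0 ≤ ep n)
    {b0 b b' : (Fin n → LL E) → ℝ≥0} (hb0 : IsNrm b0) (hb : IsNrm b)
    {f0s f0 : (Fin (r + 1) → ℤ) → Pool.Agent.H75.CO.Lt (isDV_od E) n} (hf0s : StN π S (AA n R) c d b0 f0s)
    (hf0 : WkN π S (AA n R) c d b0 f0) (hcl : Close δ b0 b) {s : GL (Fin n) (LL E)} (hsS : s ∈ S) {a : ℝ≥0} (ha : 0 < a)
    (hb' : ∀ y, b' y = a * b (s.val.mulVec y)) :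
    (∃ f', WkN (r := r) π S (AA n R) c d b' f') ∧ ∀ f', WkN π S (AA n R) c d b' f' → ∃ dl : Fin (r + 1) → ℤ,
      (∀ l, |dl l| ≤ 2 * RR n R) ∧ ∀ p : Fin (r + 1) → ℤ, (∀ l, |p l| + 3 * RR n R ≤ c) → mv s (f' p) = f0 (p + dl) := by
  obtain ⟨_, hf0s⟩ := hf0s
  obtain ⟨_, hf0⟩ := hf0
  have hb'N : IsNrm b' := nrm_scale hb s ha hb'
  have hB0 := hn_bal hb0
  have hB := hn_bal hb
  have hB' := hn_bal hb'N
  have hfam : ∀ t, bal hb'N t = mv s⁻¹ (bal hb (t + -Real.logb 2 a)) := bal_scale hb hb'N s ha hb'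
  obtain ⟨-, h0⟩ := stable hn hs hc hd hs.one hB0 hB0 (cl_refl hπ hb0 _ hep) hf0s
  obtain ⟨δ0, hδ0, h0⟩ := h0 f0 (by rw [mul_one]; exact hf0)
  obtain ⟨⟨f1, hf1⟩, h2⟩ := stable hn hs hc hd hsS hB0 hB (cl_of_Close hπ hb0 hb hδ hep hcl) hf0s
  constructor
  · have h3 := weak_equiv hs s⁻¹ (1 * s) (hn_shift hB (-Real.logb 2 a)) (wk_shift hπ hB (-Real.logb 2 a) hf1)
    have h4 : (fun t => mv ((MonoidHom.id (GL (Fin n) (LL E))) s⁻¹) (bal hb (t + -Real.logb 2 a))) = bal hb'N :=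
      funext fun t => (hfam t).symm
    have h5 : s⁻¹ * (1 * s) = 1 := by rw [_root_.one_mul, inv_mul_cancel]
    rw [h4, h5] at h3
    exact ⟨_, hb'N, h3⟩
  · rintro f' ⟨_, hf'⟩
    have h3 := weak_equiv hs s 1 hB' hf'
    have h3' : s * 1 = 1 * s := by rw [_root_.mul_one, _root_.one_mul]
    rw [h3'] at h3
    have h4 : (fun t => mv ((MonoidHom.id (GL (Fin n) (LL E))) s) (bal hb'N t)) =
        fun t => bal hb (t + -Real.logb 2 a) := by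
      funext t
      rw [hfam t]
      ext y
      show y ∈ mv s (mv s⁻¹ _) ↔ _
      rw [mem_mv, mem_mv, inv_inv, Matrix.mulVec_mulVec, ← Units.val_mul, mul_inv_cancel, Units.val_one, Matrix.one_mulVec]
    rw [h4] at h3
    have h5 := wk_unshift hπ hB (-Real.logb 2 a) h3
    obtain ⟨dl, hdl, h6⟩ := h2 _ h5
    refine ⟨dl - δ0, fun l => ?_, fun p hp => ?_⟩
    · have h7 := hdl l
      have h8 := hδ0 l
      rw [Pi.sub_apply]
      have h9 := abs_sub (dl l) (δ0 l)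
      linarith
    · have h7 : mv s (f' p) = f0s (p + dl) := h6 p fun l => by
        have := hp l
        have h9 : (0 : ℤ) ≤ RR n R := Int.natCast_nonneg _
        linarith
      have h8 : f0 (p + (dl - δ0)) = f0s (p + (dl - δ0) + δ0) := h0 _ fun l => by
        have h9 := hp l
        have h10 := hdl l
        have h11 := hδ0 l
        rw [Pi.add_apply, Pi.sub_apply]
        have h12 := abs_add_le (p l) (dl l - δ0 l)
        have h13 := abs_sub (dl l) (δ0 l)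
        linarith
      rw [h7, h8]
      exact congrArg f0s (by abel)

end

end Pool.Agent.H9.XB
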