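import Pool.Agent.H75.CO.Core
import Pool.Agent.H92.LG.CoreS

/-!
# [H9 XB Wrd] bridge from `H75/CO/Core` to `H92/LG/CoreS`: terms over words
-/

set_option autoImplicit false

namespace Pool.Agent.H9.XB

open Pool.Agent.H54.TT Pool.Agent.H98.RH Pool.Agent.H92.LG
open scoped Pointwise

/-- terms of depth at most `j` in words of length `m` -/
def TW (J : Type) (m C : ℕ) : ℕ → Set (Pool.Agent.H98.RH.LT (Fin m → J))
  | 0 => {t | ∃ (w : Fin m → J) (k : ℤ), |k| ≤ C ∧ t = Pool.Agent.H98.RH.LT.sc k (Pool.Agent.H98.RH.LT.sym w)}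
  | j + 1 => TW J m C j ∪ {t | ∃ t₁ ∈ TW J m C j, ∃ t₂ ∈ TW J m C j, ∃ k : ℤ, |k| ≤ C ∧
      (t = Pool.Agent.H98.RH.LT.sc k t₁ ∨ t = Pool.Agent.H98.RH.LT.sum t₁ t₂ ∨ t = Pool.Agent.H98.RH.LT.inf t₁ t₂)}

private theorem fin_int (C : ℕ) : {k : ℤ | |k| ≤ C}.Finite :=
  (Set.finite_Icc (-(C : ℤ)) C).subset fun _ hk => abs_le.1 hk

theorem TW_finite (J : Type) [Finite J] (m C j : ℕ) : (TW J m C j).Finite := by
  induction j with
  | zero =>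
    have h : (TW J m C 0) ⊆ (fun p : (Fin m → J) × ℤ => Pool.Agent.H98.RH.LT.sc p.2 (Pool.Agent.H98.RH.LT.sym p.1)) ''
        (Set.univ ×ˢ {k : ℤ | |k| ≤ C}) := by
      rintro _ ⟨w, k, hk, rfl⟩
      exact ⟨(w, k), ⟨trivial, hk⟩, rfl⟩
    exact ((Set.finite_univ.prod (fin_int C)).image _).subset h
  | succ j ih =>
    have h : (TW J m C (j + 1)) ⊆ TW J m C j ∪
        ((fun p : Pool.Agent.H98.RH.LT (Fin m → J) × ℤ => Pool.Agent.H98.RH.LT.sc p.2 p.1) ''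
          (TW J m C j ×ˢ {k : ℤ | |k| ≤ C}) ∪
        ((fun p : Pool.Agent.H98.RH.LT (Fin m → J) × Pool.Agent.H98.RH.LT (Fin m → J) =>
            Pool.Agent.H98.RH.LT.sum p.1 p.2) '' (TW J m C j ×ˢ TW J m C j) ∪
        (fun p : Pool.Agent.H98.RH.LT (Fin m → J) × Pool.Agent.H98.RH.LT (Fin m → J) =>
            Pool.Agent.H98.RH.LT.inf p.1 p.2) '' (TW J m C j ×ˢ TW J m C j))) := by
      rintro t (ht | ⟨t₁, h₁, t₂, h₂, k, hk, rfl | rfl | rfl⟩)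
      · exact Or.inl ht
      · exact Or.inr (Or.inl ⟨(t₁, k), ⟨h₁, hk⟩, rfl⟩)
      · exact Or.inr (Or.inr (Or.inl ⟨(t₁, t₂), ⟨h₁, h₂⟩, rfl⟩))
      · exact Or.inr (Or.inr (Or.inr ⟨(t₁, t₂), ⟨h₁, h₂⟩, rfl⟩))
    exact (ih.union (((ih.prod (fin_int C)).image _).union
      (((ih.prod ih).image _).union ((ih.prod ih).image _)))).subset h

/-- translation of terms over the group into terms over words -/
theorem exists_word {F : Type} [Field F] {v : F → ℤ} (hv : IsDV v) (π : Fˣ) {n : ℕ} {J : Type} (σ : J → GL (Fin n) F)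
    {m C : ℕ} (j : ℕ) : ∀ t ∈ Pool.Agent.H75.CO.TL (Set.range σ) m C j, ∃ t' ∈ TW J m C j,
      ev hv π (fun g : GL (Fin n) F => g) t = ev hv π (wd σ) t' := by
  induction j with
  | zero =>
    rintro _ ⟨s, hs, k, hk, rfl⟩
    obtain ⟨f, hf⟩ := Set.mem_pow.1 hs
    choose w hw using fun i => (f i).2
    refine ⟨_, ⟨w, k, hk, rfl⟩, ?_⟩
    have h1 : wd σ w = s := by
      rw [← hf]
      unfold wd
      exact congrArg List.prod (congrArg List.ofFn (funext fun i => hw i))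
    show (LM hv s).map _ = (LM hv (wd σ w)).map _
    rw [h1]
  | succ j ih =>
    rintro t (ht | ⟨t₁, h₁, t₂, h₂, k, hk, rfl | rfl | rfl⟩)
    · obtain ⟨t', h1, h2⟩ := ih t ht
      exact ⟨t', Or.inl h1, h2⟩
    · obtain ⟨t', h1, h2⟩ := ih t₁ h₁
      obtain ⟨t'', h3, h4⟩ := ih t₂ h₂
      refine ⟨_, Or.inr ⟨t', h1, t'', h3, k, hk, Or.inl rfl⟩, ?_⟩
      show (ev hv π _ t₁).map _ = (ev hv π _ t').map _
      rw [h2]
    · obtain ⟨t', h1, h2⟩ := ih t₁ h₁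
      obtain ⟨t'', h3, h4⟩ := ih t₂ h₂
      refine ⟨_, Or.inr ⟨t', h1, t'', h3, k, hk, Or.inr (Or.inl rfl)⟩, ?_⟩
      show ev hv π _ t₁ ⊔ ev hv π _ t₂ = ev hv π _ t' ⊔ ev hv π _ t''
      rw [h2, h4]
    · obtain ⟨t', h1, h2⟩ := ih t₁ h₁
      obtain ⟨t'', h3, h4⟩ := ih t₂ h₂
      refine ⟨_, Or.inr ⟨t', h1, t'', h3, k, hk, Or.inr (Or.inr rfl)⟩, ?_⟩
      show ev hv π _ t₁ ⊓ ev hv π _ t₂ = ev hv π _ t' ⊓ ev hv π _ t''
      rw [h2, h4]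

/-- the counting bound -/
theorem exists_bound (a b d e : ℕ) : ∃ c1 : ℕ, ∀ c s : ℕ, c1 ≤ c → s ≤ d →
    (10 * (a * c + 1) * (s + 1) ^ (b * c)) ^ e ≤ 2 ^ (c ^ 2) := by
  refine ⟨e * (10 * (a + 1) + b * (d + 1)) + 1, fun c s hc hs => ?_⟩
  have hc1 : 1 ≤ c := le_trans (Nat.le_add_left 1 _) hc
  have h1 : 10 * (a * c + 1) ≤ 2 ^ (10 * (a + 1) * c) := by
    calc 10 * (a * c + 1) ≤ 10 * (a + 1) * c := by nlinarith
      _ ≤ 2 ^ (10 * (a + 1) * c) := Nat.lt_two_pow_self.le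
  have h2 : (s + 1) ^ (b * c) ≤ 2 ^ (b * (d + 1) * c) := by
    calc (s + 1) ^ (b * c) ≤ (2 ^ (d + 1)) ^ (b * c) :=
          Nat.pow_le_pow_left (le_trans (Nat.add_le_add_right hs 1) Nat.lt_two_pow_self.le) _
      _ = 2 ^ (b * (d + 1) * c) := by rw [← pow_mul]; ring_nf
  calc (10 * (a * c + 1) * (s + 1) ^ (b * c)) ^ e ≤ (2 ^ (10 * (a + 1) * c) * 2 ^ (b * (d + 1) * c)) ^ e :=
        Nat.pow_le_pow_left (Nat.mul_le_mul h1 h2) _
    _ = 2 ^ (e * (10 * (a + 1) + b * (d + 1)) * c) := by rw [← pow_add, ← pow_mul]; ring_nf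
    _ ≤ 2 ^ (c ^ 2) := by
      refine Nat.pow_le_pow_right (by norm_num) ?_
      rw [pow_two]
      exact Nat.mul_le_mul_right c (le_trans (Nat.le_succ _) hc)

end Pool.Agent.H9.XB
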